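import Pool.Agent.Y856.Sq.Stm

/-!
# SQ2: the sum of `ZZ` over an interval of `t`, split into blocks
-/

set_option autoImplicit false
set_option linter.unusedVariables false

namespace Pool.Agent.Y812.SQ

open Finset
open Pool.Agent.H442R2.EHI Pool.Agent.Y856.Sq

/-- integers of an interval in a residue class -/
lemma count_class (a b r : ℤ) (k : ℕ) (hk : 1 ≤ k) (hab : a ≤ b + 1) :
    ((((Icc a b).filter (fun n => (k : ℤ) ∣ n - r)).card : ℕ) : ℝ) ≤ ((b + 1 - a : ℤ) : ℝ) / k + 1 := by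
  have hk0 : (0 : ℤ) < (k : ℤ) := by exact_mod_cast hk
  have h1 := Int.Ico_filter_modEq_card a (b + 1) hk0 r
  have h2 : (Icc a b).filter (fun n => (k : ℤ) ∣ n - r) =
      (Ico a (b + 1)).filter (fun x => x ≡ r [ZMOD (k : ℤ)]) := by
    ext n
    simp only [mem_filter, mem_Icc, mem_Ico]
    constructor
    · rintro ⟨⟨h3, h4⟩, h5⟩
      exact ⟨⟨h3, by omega⟩, (Int.modEq_iff_dvd.2 (by
        have : r - n = -(n - r) := by ring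
        rw [this]
        exact (dvd_neg).2 h5))⟩
    · rintro ⟨⟨h3, h4⟩, h5⟩
      refine ⟨⟨h3, by omega⟩, ?_⟩
      have h6 := Int.modEq_iff_dvd.1 h5
      have : n - r = -(r - n) := by ring
      rw [this]
      exact (dvd_neg).2 h6
  rw [h2]
  have h3 : ((#{x ∈ Ico a (b + 1) | x ≡ r [ZMOD (k : ℤ)]} : ℤ) : ℚ) ≤
      ((b + 1 - a : ℤ) : ℚ) / k + 1 := by
    rw [h1]
    push_cast
    have hkQ : (0 : ℚ) < (k : ℚ) := by exact_mod_cast hk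
    refine max_le ?_ ?_
    · have h4 := Int.ceil_lt_add_one (((b : ℚ) + 1 - r) / k)
      have h5 := Int.le_ceil (((a : ℚ) - r) / k)
      have h6 : ((b : ℚ) + 1 - r) / k - ((a : ℚ) - r) / k = ((b : ℚ) + 1 - a) / k := by
        rw [← sub_div]; congr 1; ring
      linarith
    · have h7 : (0 : ℚ) ≤ (b : ℚ) + 1 - a := by
        have : (a : ℚ) ≤ b + 1 := by exact_mod_cast hab
        linarith
      have h8 := div_nonneg h7 hkQ.le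
      linarith
  have h4 : ((#{x ∈ Ico a (b + 1) | x ≡ r [ZMOD (k : ℤ)]} : ℕ) : ℚ) ≤
      ((b + 1 - a : ℤ) : ℚ) / k + 1 := by
    exact_mod_cast h3
  have h5 : (((#{x ∈ Ico a (b + 1) | x ≡ r [ZMOD (k : ℤ)]} : ℕ) : ℚ) : ℝ) ≤
      (((((b + 1 - a : ℤ) : ℚ) / k + 1 : ℚ)) : ℝ) := by
    exact_mod_cast h4
  push_cast at h5 ⊢
  exact h5

/-- the second moment of the number of representations -/
lemma rho_sq (T : Finset ℕ) (I : Finset ℤ) (k : ℕ) (c : ℤ) (z : ℕ → ℤ) (B : ℝ)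
    (hI : ∀ r : ℤ, ((I.filter (fun n => (k : ℤ) ∣ n - r)).card : ℝ) ≤ B) :
    ∑ n ∈ I, ((T.filter (fun τ => (k : ℤ) ∣ n - c - z τ ^ 2)).card : ℝ) ^ 2 ≤
      (((T ×ˢ T).filter (fun q : ℕ × ℕ => (k : ℤ) ∣ z q.1 ^ 2 - z q.2 ^ 2)).card : ℝ) * B := by
  have h1 : ∀ n : ℤ, ((T.filter (fun τ => (k : ℤ) ∣ n - c - z τ ^ 2)).card : ℝ) ^ 2 =
      ∑ q ∈ T ×ˢ T, (if (k : ℤ) ∣ n - c - z q.1 ^ 2 ∧ (k : ℤ) ∣ n - c - z q.2 ^ 2 then (1 : ℝ) else 0) := by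
    intro n
    rw [sq, ← Nat.cast_mul, ← card_product, ← filter_product, card_filter]
    push_cast
    rfl
  have h2 : ∀ q : ℕ × ℕ, ∑ n ∈ I, (if (k : ℤ) ∣ n - c - z q.1 ^ 2 ∧ (k : ℤ) ∣ n - c - z q.2 ^ 2
      then (1 : ℝ) else 0) ≤ (if (k : ℤ) ∣ z q.1 ^ 2 - z q.2 ^ 2 then B else 0) := by
    intro q
    by_cases hq : (k : ℤ) ∣ z q.1 ^ 2 - z q.2 ^ 2
    · rw [if_pos hq]
      refine le_trans ?_ (hI (c + z q.1 ^ 2))
      rw [card_filter]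
      push_cast
      refine sum_le_sum fun n _ => ?_
      by_cases h3 : (k : ℤ) ∣ n - c - z q.1 ^ 2 ∧ (k : ℤ) ∣ n - c - z q.2 ^ 2
      · rw [if_pos h3, if_pos]
        rw [← sub_sub]
        exact h3.1
      · rw [if_neg h3]
        split_ifs <;> norm_num
    · rw [if_neg hq]
      refine le_of_eq (sum_eq_zero fun n _ => ?_)
      rw [if_neg]
      rintro ⟨h3, h4⟩
      apply hq
      have h5 := dvd_sub h4 h3
      have h6 : n - c - z q.2 ^ 2 - (n - c - z q.1 ^ 2) = z q.1 ^ 2 - z q.2 ^ 2 := by ring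
      rwa [h6] at h5
  calc ∑ n ∈ I, ((T.filter (fun τ => (k : ℤ) ∣ n - c - z τ ^ 2)).card : ℝ) ^ 2
      = ∑ n ∈ I, ∑ q ∈ T ×ˢ T, (if (k : ℤ) ∣ n - c - z q.1 ^ 2 ∧ (k : ℤ) ∣ n - c - z q.2 ^ 2
          then (1 : ℝ) else 0) := sum_congr rfl fun n _ => h1 n
    _ = ∑ q ∈ T ×ˢ T, ∑ n ∈ I, (if (k : ℤ) ∣ n - c - z q.1 ^ 2 ∧ (k : ℤ) ∣ n - c - z q.2 ^ 2
          then (1 : ℝ) else 0) := sum_comm
    _ ≤ ∑ q ∈ T ×ˢ T, (if (k : ℤ) ∣ z q.1 ^ 2 - z q.2 ^ 2 then B else 0) :=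
          sum_le_sum fun q _ => h2 q
    _ = _ := by
          rw [card_filter]
          push_cast
          rw [sum_mul]
          refine sum_congr rfl fun q _ => ?_
          split_ifs <;> simp

/-- weighted sum against the number of representations -/
lemma weighted_sq (T : Finset ℕ) (I : Finset ℤ) (k : ℕ) (c : ℤ) (z : ℕ → ℤ) (w : ℤ → ℝ) (C : ℝ)
    (hC : ∑ n ∈ I, ((T.filter (fun τ => (k : ℤ) ∣ n - c - z τ ^ 2)).card : ℝ) ^ 2 ≤ C) :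
    (∑ τ ∈ T, ∑ n ∈ I.filter (fun n => (k : ℤ) ∣ n - c - z τ ^ 2), w n ^ 2) ^ 2 ≤
      (∑ n ∈ I, w n ^ 4) * C := by
  have h1 : ∑ τ ∈ T, ∑ n ∈ I.filter (fun n => (k : ℤ) ∣ n - c - z τ ^ 2), w n ^ 2 =
      ∑ n ∈ I, w n ^ 2 * ((T.filter (fun τ => (k : ℤ) ∣ n - c - z τ ^ 2)).card : ℝ) := by
    calc _ = ∑ τ ∈ T, ∑ n ∈ I, (if (k : ℤ) ∣ n - c - z τ ^ 2 then w n ^ 2 else 0) :=
          sum_congr rfl fun τ _ => sum_filter _ _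
      _ = ∑ n ∈ I, ∑ τ ∈ T, (if (k : ℤ) ∣ n - c - z τ ^ 2 then w n ^ 2 else 0) := sum_comm
      _ = _ := by
          refine sum_congr rfl fun n _ => ?_
          rw [card_filter]
          push_cast
          rw [mul_sum]
          refine sum_congr rfl fun τ _ => ?_
          split_ifs <;> simp
  rw [h1]
  refine (sum_mul_sq_le_sq_mul_sq _ _ _).trans ?_
  have h2 : ∑ n ∈ I, (w n ^ 2) ^ 2 = ∑ n ∈ I, w n ^ 4 := sum_congr rfl fun n _ => by ring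
  rw [h2]
  exact mul_le_mul_of_nonneg_left hC (sum_nonneg fun n _ => by positivity)

lemma sum_Ioc_range {M : Type*} [AddCommMonoid M] (F : ℕ → M) (b k : ℕ) :
    ∑ t ∈ Ioc b (b + k), F t = ∑ τ ∈ range k, F (b + 1 + τ) := by
  have h : Ioc b (b + k) = Ico (b + 1) (b + 1 + k) := by
    ext t
    simp only [mem_Ioc, mem_Ico]
    omega
  rw [h, sum_Ico_eq_sum_range]
  have h2 : b + 1 + k - (b + 1) = k := by omega
  rw [h2]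

lemma sum_block_one {M : Type*} [AddCommMonoid M] (F : ℕ → M) (k b L0 : ℕ) :
    ∑ t ∈ Ioc b (b + k * L0), F t = ∑ τ ∈ range k, ∑ l ∈ range L0, F (b + 1 + τ + k * l) := by
  rw [sum_comm]
  induction L0 with
  | zero => simp
  | succ n ih =>
    rw [sum_range_succ, ← ih, ← sum_Ioc_consecutive F (n := b + k * n) (by omega) (by
      rw [Nat.mul_succ]; omega)]
    congr 1
    have h : b + k * (n + 1) = b + k * n + k := by rw [Nat.mul_succ]; omega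
    rw [h, sum_Ioc_range]
    refine sum_congr rfl fun τ _ => ?_
    congr 1
    omega

lemma sum_blocks {M : Type*} [AddCommMonoid M] (F : ℕ → M) (b B J : ℕ) :
    ∑ t ∈ Ioc b (b + B * J), F t = ∑ j ∈ range J, ∑ t ∈ Ioc (b + B * j) (b + B * j + B), F t := by
  induction J with
  | zero => simp
  | succ n ih =>
    have h : b + B * (n + 1) = b + B * n + B := by rw [Nat.mul_succ]; omega
    rw [sum_range_succ, ← ih, h, ← sum_Ioc_consecutive F (n := b + B * n) (by omega) (by omega)]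

/-- the inner sums over `l` -/
lemma inner_sum (f : ℤ → ℂ) (x k1 k2 h p a0 τ L0 : ℕ) (c : ℤ) (hk1 : 1 ≤ k1) (hh : h ∣ k1)
    (hpar : (2 : ℤ) ∣ ((k1 / h * p : ℕ) : ℤ) + h * ((a0 : ℤ) + τ)) :
    ∑ l ∈ range L0, ZZ f x c k1 k2 ((k1 / h * p : ℕ) : ℤ) ((h * (a0 + τ + 2 * k2 * l) : ℕ) : ℤ) =
      ∑ n ∈ (Icc (1 : ℤ) x).filter (fun n => (k2 : ℤ) ∣ n - c -
          ((((k1 / h * p : ℕ) : ℤ) + h * ((a0 : ℤ) + τ)) / 2) ^ 2),
        (starRingEnd ℂ) (f n) * AA f (2 * (p : ℤ) * ((k1 : ℤ) - k2) * k2) L0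
          (n - p * ((k1 : ℤ) - k2) * ((a0 : ℤ) + τ)) := by
  have hP : ((k1 / h * p : ℕ) : ℤ) * h = k1 * p := by
    have h1 : k1 / h * p * h = k1 * p := by
      rw [mul_right_comm, Nat.div_mul_cancel hh]
    exact_mod_cast h1
  set P0 : ℤ := ((k1 / h * p : ℕ) : ℤ) with hP0
  have hk1' : (k1 : ℤ) ≠ 0 := by exact_mod_cast (by omega : k1 ≠ 0)
  obtain ⟨y, hy⟩ := hpar
  have hy2 : (P0 + h * ((a0 : ℤ) + τ)) / 2 = y := by rw [hy]; exact Int.mul_ediv_cancel_left _ (by norm_num)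
  have e1 : ∀ l : ℕ, (P0 + ((h * (a0 + τ + 2 * k2 * l) : ℕ) : ℤ)) / 2 = y + h * k2 * l := by
    intro l
    have : P0 + ((h * (a0 + τ + 2 * k2 * l) : ℕ) : ℤ) = 2 * (y + h * k2 * l) := by
      push_cast
      linear_combination hy
    rw [this]
    exact Int.mul_ediv_cancel_left _ (by norm_num)
  have e2 : ∀ l : ℕ, P0 * ((h * (a0 + τ + 2 * k2 * l) : ℕ) : ℤ) / k1 =
      p * ((a0 : ℤ) + τ + 2 * k2 * l) := by
    intro l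
    have : P0 * ((h * (a0 + τ + 2 * k2 * l) : ℕ) : ℤ) = k1 * (p * ((a0 : ℤ) + τ + 2 * k2 * l)) := by
      push_cast
      linear_combination ((a0 : ℤ) + τ + 2 * k2 * l) * hP
    rw [this]
    exact Int.mul_ediv_cancel_left _ hk1'
  have e3 : ∀ l : ℕ, ZZ f x c k1 k2 P0 ((h * (a0 + τ + 2 * k2 * l) : ℕ) : ℤ) =
      ∑ n ∈ (Icc (1 : ℤ) x).filter (fun n => (k2 : ℤ) ∣ n - c - y ^ 2),
        (starRingEnd ℂ) (f n) * f (n - p * ((k1 : ℤ) - k2) * ((a0 : ℤ) + τ) -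
          (2 * (p : ℤ) * ((k1 : ℤ) - k2) * k2) * l) := by
    intro l
    unfold ZZ
    rw [e1, e2]
    have hf : (Icc (1 : ℤ) x).filter (fun n => (k2 : ℤ) ∣ n - c - (y + h * k2 * l) ^ 2) =
        (Icc (1 : ℤ) x).filter (fun n => (k2 : ℤ) ∣ n - c - y ^ 2) := by
      refine filter_congr fun n _ => ?_
      have h4 : n - c - (y + h * k2 * l) ^ 2 = n - c - y ^ 2 - k2 * (2 * y * h * l + h ^ 2 * k2 * l ^ 2) := by
        ring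
      rw [h4]
      exact dvd_sub_left (Dvd.intro _ rfl)
    rw [hf]
    refine sum_congr rfl fun n _ => ?_
    congr 2
    ring
  simp only [e3, hy2]
  rw [sum_comm]
  refine sum_congr rfl fun n _ => ?_
  unfold AA
  rw [mul_sum]

lemma AA_support {f : ℤ → ℂ} {x : ℕ} (hf : ∀ n : ℤ, f n ≠ 0 → 1 ≤ n ∧ n ≤ x) {Δ : ℤ} {L0 : ℕ}
    (hΔ : |Δ| * L0 ≤ x) {y : ℤ} (hy : AA f Δ L0 y ≠ 0) : y ∈ Icc (-(x : ℤ)) (2 * x) := by
  unfold AA at hy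
  obtain ⟨l, hl, h1⟩ := exists_ne_zero_of_sum_ne_zero hy
  obtain ⟨h2, h3⟩ := hf _ h1
  rw [mem_range] at hl
  have h4 : |Δ * l| ≤ x := by
    rw [abs_mul]
    refine le_trans ?_ hΔ
    refine mul_le_mul_of_nonneg_left ?_ (abs_nonneg _)
    rw [Nat.abs_cast]
    exact_mod_cast hl.le
  obtain ⟨h5, h6⟩ := abs_le.1 h4
  rw [mem_Icc]
  constructor <;> linarith

/-- the sixth moment of `AA` -/
lemma AA_six {f : ℤ → ℂ} {x : ℕ} (hf : ∀ n : ℤ, f n ≠ 0 → 1 ≤ n ∧ n ≤ x) (Δ : ℤ) (L0 : ℕ) :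
    ∑ y ∈ Icc (-(x : ℤ)) (2 * x), ‖AA f Δ L0 y‖ ^ 6 ≤ (L0 : ℝ) ^ 6 * mom f x 6 := by
  have h1 : ∀ y : ℤ, ‖AA f Δ L0 y‖ ^ 6 ≤ (L0 : ℝ) ^ 5 * ∑ l ∈ range L0, ‖f (y - Δ * l)‖ ^ 6 := by
    intro y
    have h2 : ‖AA f Δ L0 y‖ ≤ ∑ l ∈ range L0, ‖f (y - Δ * l)‖ := norm_sum_le _ _
    have h3 := pow_sum_le_card_mul_sum_pow (s := range L0) (f := fun l : ℕ => ‖f (y - Δ * l)‖)
      (fun l _ => norm_nonneg _) 5
    rw [card_range] at h3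
    exact (pow_le_pow_left₀ (norm_nonneg _) h2 6).trans h3
  have h4 : ∀ l : ℕ, ∑ y ∈ Icc (-(x : ℤ)) (2 * x), ‖f (y - Δ * l)‖ ^ 6 ≤ mom f x 6 := by
    intro l
    unfold mom
    have h5 : ∑ y ∈ Icc (-(x : ℤ)) (2 * x), ‖f (y - Δ * l)‖ ^ 6 =
        ∑ n ∈ (Icc (-(x : ℤ)) (2 * x)).image (fun y => y - Δ * l), ‖f n‖ ^ 6 := by
      rw [sum_image]
      intro a _ b _ hab
      simpa using hab
    rw [h5, ← sum_filter_ne_zero]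
    refine sum_le_sum_of_subset_of_nonneg ?_ fun n _ _ => by positivity
    intro n hn
    rw [mem_filter] at hn
    have h6 : f n ≠ 0 := by
      intro h0
      apply hn.2
      rw [h0]
      simp
    rw [mem_Icc]
    exact hf n h6
  calc ∑ y ∈ Icc (-(x : ℤ)) (2 * x), ‖AA f Δ L0 y‖ ^ 6
      ≤ ∑ y ∈ Icc (-(x : ℤ)) (2 * x), (L0 : ℝ) ^ 5 * ∑ l ∈ range L0, ‖f (y - Δ * l)‖ ^ 6 :=
        sum_le_sum fun y _ => h1 y
    _ = (L0 : ℝ) ^ 5 * ∑ l ∈ range L0, ∑ y ∈ Icc (-(x : ℤ)) (2 * x), ‖f (y - Δ * l)‖ ^ 6 := by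
        rw [← mul_sum, sum_comm]
    _ ≤ (L0 : ℝ) ^ 5 * ∑ l ∈ range L0, mom f x 6 := by
        refine mul_le_mul_of_nonneg_left (sum_le_sum fun l _ => h4 l) (by positivity)
    _ = _ := by
        rw [sum_const, card_range, nsmul_eq_mul]
        ring

lemma AA_four {f : ℤ → ℂ} {x : ℕ} (hf : ∀ n : ℤ, f n ≠ 0 → 1 ≤ n ∧ n ≤ x) (Δ : ℤ) (L0 : ℕ) :
    (∑ y ∈ Icc (-(x : ℤ)) (2 * x), ‖AA f Δ L0 y‖ ^ 4) ^ 2 ≤
      (∑ y ∈ Icc (-(x : ℤ)) (2 * x), ‖AA f Δ L0 y‖ ^ 2) * ((L0 : ℝ) ^ 6 * mom f x 6) := by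
  have h1 : ∑ y ∈ Icc (-(x : ℤ)) (2 * x), ‖AA f Δ L0 y‖ ^ 4 =
      ∑ y ∈ Icc (-(x : ℤ)) (2 * x), ‖AA f Δ L0 y‖ * ‖AA f Δ L0 y‖ ^ 3 :=
    sum_congr rfl fun y _ => by ring
  rw [h1]
  refine (sum_mul_sq_le_sq_mul_sq _ _ _).trans ?_
  have h2 : ∑ y ∈ Icc (-(x : ℤ)) (2 * x), (‖AA f Δ L0 y‖ ^ 3) ^ 2 =
      ∑ y ∈ Icc (-(x : ℤ)) (2 * x), ‖AA f Δ L0 y‖ ^ 6 := sum_congr rfl fun y _ => by ring
  rw [h2]
  exact mul_le_mul_of_nonneg_left (AA_six hf Δ L0) (sum_nonneg fun y _ => by positivity)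

/-- from `n` to `y = n - s (a0 + τ)` -/
lemma change_var {f : ℤ → ℂ} {x : ℕ} (hf : ∀ n : ℤ, f n ≠ 0 → 1 ≤ n ∧ n ≤ x) {Δ : ℤ} {L0 : ℕ}
    (hΔ : |Δ| * L0 ≤ x) (k : ℕ) (c z z' v : ℤ)
    (hz : (k : ℤ) ∣ z ^ 2 - v - z' ^ 2) :
    ∑ n ∈ (Icc (1 : ℤ) x).filter (fun n => (k : ℤ) ∣ n - c - z ^ 2), ‖AA f Δ L0 (n - v)‖ ^ 2 ≤
      ∑ y ∈ (Icc (-(x : ℤ)) (2 * x)).filter (fun y => (k : ℤ) ∣ y - c - z' ^ 2),
        ‖AA f Δ L0 y‖ ^ 2 := by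
  have h5 : ∑ n ∈ (Icc (1 : ℤ) x).filter (fun n => (k : ℤ) ∣ n - c - z ^ 2),
        ‖AA f Δ L0 (n - v)‖ ^ 2 =
      ∑ y ∈ ((Icc (1 : ℤ) x).filter (fun n => (k : ℤ) ∣ n - c - z ^ 2)).image (fun n => n - v),
        ‖AA f Δ L0 y‖ ^ 2 := by
    rw [sum_image]
    intro a _ b _ hab
    simpa using hab
  rw [h5, ← sum_filter_ne_zero]
  refine sum_le_sum_of_subset_of_nonneg ?_ fun n _ _ => by positivity
  intro y hy
  rw [mem_filter, mem_image] at hy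
  obtain ⟨⟨n, hn, rfl⟩, h6⟩ := hy
  rw [mem_filter] at hn
  have h7 : AA f Δ L0 (n - v) ≠ 0 := by
    intro h0
    apply h6
    rw [h0]
    simp
  rw [mem_filter]
  refine ⟨AA_support hf hΔ h7, ?_⟩
  have h8 : n - v - c - z' ^ 2 = (n - c - z ^ 2) + (z ^ 2 - v - z' ^ 2) := by ring
  rw [h8]
  exact dvd_add hn.2 hz

lemma final_alg {N U V M4 M6 A S2 S4 L6 : ℝ} (hN : 0 ≤ N) (hU : 0 ≤ U) (hV : 0 ≤ V) (hM4 : 0 ≤ M4)
    (hA : 0 ≤ A) (hS4 : 0 ≤ S4) (h1 : N ^ 2 ≤ U * V) (h2 : U ^ 2 ≤ M4 * A) (h3 : V ^ 2 ≤ S4 * A)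
    (h4 : S4 ^ 2 ≤ S2 * (L6 * M6)) : N ^ 8 ≤ A ^ 4 * M4 ^ 2 * M6 * L6 * S2 := by
  calc N ^ 8 = (N ^ 2) ^ 4 := by ring
    _ ≤ (U * V) ^ 4 := pow_le_pow_left₀ (by positivity) h1 4
    _ = (U ^ 2) ^ 2 * (V ^ 2) ^ 2 := by ring
    _ ≤ (M4 * A) ^ 2 * (S4 * A) ^ 2 := by
        refine mul_le_mul (pow_le_pow_left₀ (by positivity) h2 2)
          (pow_le_pow_left₀ (by positivity) h3 2) (by positivity) (by positivity)
    _ = (M4 ^ 2 * A ^ 4) * S4 ^ 2 := by ring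
    _ ≤ (M4 ^ 2 * A ^ 4) * (S2 * (L6 * M6)) :=
        mul_le_mul_of_nonneg_left h4 (by positivity)
    _ = _ := by ring

lemma root_eight {N M4 M6 A S2 L : ℝ} (hN : 0 ≤ N) (hM4 : 0 ≤ M4) (hM6 : 0 ≤ M6)
    (hA : 0 ≤ A) (hL : 0 ≤ L) (hS2 : 0 ≤ S2) (h : N ^ 8 ≤ A ^ 4 * M4 ^ 2 * M6 * L ^ 6 * S2) :
    N ≤ A ^ (1 / 2 : ℝ) * M4 ^ (1 / 4 : ℝ) * M6 ^ (1 / 8 : ℝ) * L ^ (3 / 4 : ℝ) * S2 ^ (1 / 8 : ℝ) := by
  have e1 : (A ^ (1 / 2 : ℝ)) ^ 8 = A ^ 4 := by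
    rw [← Real.rpow_natCast, ← Real.rpow_mul hA, ← Real.rpow_natCast]
    norm_num
  have e2 : (M4 ^ (1 / 4 : ℝ)) ^ 8 = M4 ^ 2 := by
    rw [← Real.rpow_natCast, ← Real.rpow_mul hM4, ← Real.rpow_natCast]
    norm_num
  have e3 : (M6 ^ (1 / 8 : ℝ)) ^ 8 = M6 := by
    rw [← Real.rpow_natCast, ← Real.rpow_mul hM6]
    norm_num
  have e4 : (L ^ (3 / 4 : ℝ)) ^ 8 = L ^ 6 := by
    rw [← Real.rpow_natCast, ← Real.rpow_mul hL, ← Real.rpow_natCast]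
    norm_num
  have e5 : (S2 ^ (1 / 8 : ℝ)) ^ 8 = S2 := by
    rw [← Real.rpow_natCast, ← Real.rpow_mul hS2]
    norm_num
  refine le_of_pow_le_pow_left₀ (n := 8) (by norm_num) (by positivity) ?_
  rw [mul_pow, mul_pow, mul_pow, mul_pow, e1, e2, e3, e4, e5]
  exact h

/-- the eighth power of one block -/
lemma block_eight (hc : S_cong) (f : ℤ → ℂ) (x k1 k2 h p a0 L0 : ℕ) (c : ℤ)
    (hf : ∀ n : ℤ, f n ≠ 0 → 1 ≤ n ∧ n ≤ x) (hk1 : 1 ≤ k1) (hk2 : 1 ≤ k2) (hkx : k2 ≤ x)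
    (hh1 : 1 ≤ h) (hh : h ∣ k1) (hΔ : |2 * (p : ℤ) * ((k1 : ℤ) - k2) * k2| * L0 ≤ x) :
    ‖∑ τ ∈ (range (2 * k2)).filter (fun τ : ℕ => (2 : ℤ) ∣ ((k1 / h * p : ℕ) : ℤ) + h * ((a0 : ℤ) + τ)),
      ∑ n ∈ (Icc (1 : ℤ) x).filter (fun n => (k2 : ℤ) ∣ n - c -
          ((((k1 / h * p : ℕ) : ℤ) + h * ((a0 : ℤ) + τ)) / 2) ^ 2),
        (starRingEnd ℂ) (f n) * AA f (2 * (p : ℤ) * ((k1 : ℤ) - k2) * k2) L0
          (n - p * ((k1 : ℤ) - k2) * ((a0 : ℤ) + τ))‖ ^ 8 ≤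
      (40 * x * (Nat.gcd h k2 : ℝ) ^ 2 * k2.divisors.card) ^ 4 * mom f x 4 ^ 2 *
        mom f x 6 * (L0 : ℝ) ^ 6 * (∑ y ∈ Icc (-(x : ℤ)) (2 * x),
          ‖AA f (2 * (p : ℤ) * ((k1 : ℤ) - k2) * k2) L0 y‖ ^ 2) := by
  have hP : ((k1 / h * p : ℕ) : ℤ) * h = k1 * p := by
    have h1 : k1 / h * p * h = k1 * p := by
      rw [mul_right_comm, Nat.div_mul_cancel hh]
    exact_mod_cast h1
  set P0 : ℤ := ((k1 / h * p : ℕ) : ℤ) with hP0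
  set Δ : ℤ := 2 * (p : ℤ) * ((k1 : ℤ) - k2) * k2 with hΔd
  set T : Finset ℕ := (range (2 * k2)).filter (fun τ : ℕ => (2 : ℤ) ∣ P0 + h * ((a0 : ℤ) + τ)) with hT
  set z : ℕ → ℤ := fun τ => (P0 + h * ((a0 : ℤ) + τ)) / 2 with hz
  set v : ℕ → ℤ := fun τ => p * ((k1 : ℤ) - k2) * ((a0 : ℤ) + τ) with hv
  set A : ℝ := 40 * x * (Nat.gcd h k2 : ℝ) ^ 2 * k2.divisors.card with hA
  have hk2R : (1 : ℝ) ≤ k2 := by exact_mod_cast hk2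
  have hkxR : (k2 : ℝ) ≤ x := by exact_mod_cast hkx
  set G : ℝ := (Nat.gcd h k2 : ℝ) ^ 2 * k2.divisors.card with hG
  have hG0 : 0 ≤ G := by positivity
  have hAG : A = 40 * x * G := by rw [hA, hG]; ring
  -- the number of pairs
  have hpairs : ∀ e : ℤ, (((T ×ˢ T).filter (fun q : ℕ × ℕ =>
      (k2 : ℤ) ∣ (z q.1 + e) ^ 2 - (z q.2 + e) ^ 2)).card : ℝ) ≤ 8 * G * k2 := by
    intro e
    have h1 := hc k2 h P0 a0 e hk2 hh1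
    have h2 : 8 * (Nat.gcd h k2 : ℝ) ^ 2 * k2 * k2.divisors.card = 8 * G * k2 := by rw [hG]; ring
    rw [h2] at h1
    refine le_trans ?_ h1
    norm_cast
    refine card_le_card ?_
    intro q hq
    rw [mem_filter, mem_product, hT, mem_filter, mem_filter] at hq
    rw [mem_filter, mem_product]
    exact ⟨⟨hq.1.1.1, hq.1.2.1⟩, hq.1.1.2, hq.1.2.2, hq.2⟩
  have hrho1 : ∑ n ∈ Icc (1 : ℤ) x, ((T.filter (fun τ => (k2 : ℤ) ∣ n - c - z τ ^ 2)).card : ℝ) ^ 2 ≤ A := by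
    have h1 := rho_sq T (Icc (1 : ℤ) x) k2 c z ((x : ℝ) / k2 + 1) (fun r => by
      have h2 := count_class 1 x r k2 hk2 (by omega)
      push_cast at h2 ⊢
      have e : ((x : ℝ) + 1 - 1) / k2 + 1 = (x : ℝ) / k2 + 1 := by ring
      rw [e] at h2
      exact h2)
    have h3 := hpairs 0
    simp only [add_zero] at h3
    refine h1.trans ((mul_le_mul_of_nonneg_right h3 (by positivity)).trans ?_)
    have h4 : 8 * G * k2 * ((x : ℝ) / k2 + 1) = 8 * G * (x + k2) := by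
      field_simp
    rw [h4, hAG]
    nlinarith [mul_le_mul_of_nonneg_left hkxR hG0]
  have hrho2 : ∑ y ∈ Icc (-(x : ℤ)) (2 * x),
      ((T.filter (fun τ => (k2 : ℤ) ∣ y - c - (z τ + -P0) ^ 2)).card : ℝ) ^ 2 ≤ A := by
    have h1 := rho_sq T (Icc (-(x : ℤ)) (2 * x)) k2 c (fun τ => z τ + -P0) ((3 * (x : ℝ) + 1) / k2 + 1)
      (fun r => by
        have h2 := count_class (-(x : ℤ)) (2 * x) r k2 hk2 (by omega)
        push_cast at h2 ⊢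
        have e : (2 * (x : ℝ) + 1 - -(x : ℝ)) / k2 + 1 = (3 * (x : ℝ) + 1) / k2 + 1 := by ring
        rw [e] at h2
        exact h2)
    have h3 := hpairs (-P0)
    refine h1.trans ((mul_le_mul_of_nonneg_right h3 (by positivity)).trans ?_)
    have h4 : 8 * G * k2 * ((3 * (x : ℝ) + 1) / k2 + 1) = 8 * G * (3 * x + 1 + k2) := by
      field_simp
    rw [h4, hAG]
    have h5 : 3 * (x : ℝ) + 1 + k2 ≤ 5 * x := by linarith
    nlinarith [mul_le_mul_of_nonneg_left h5 hG0]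
  -- the two factors of Cauchy-Schwarz
  set U : ℝ := ∑ τ ∈ T, ∑ n ∈ (Icc (1 : ℤ) x).filter (fun n => (k2 : ℤ) ∣ n - c - z τ ^ 2),
    ‖f n‖ ^ 2 with hU
  set V : ℝ := ∑ τ ∈ T, ∑ n ∈ (Icc (1 : ℤ) x).filter (fun n => (k2 : ℤ) ∣ n - c - z τ ^ 2),
    ‖AA f Δ L0 (n - v τ)‖ ^ 2 with hV
  set V' : ℝ := ∑ τ ∈ T, ∑ y ∈ (Icc (-(x : ℤ)) (2 * x)).filter
    (fun y => (k2 : ℤ) ∣ y - c - (z τ + -P0) ^ 2), ‖AA f Δ L0 y‖ ^ 2 with hV'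
  have hU0 : 0 ≤ U := sum_nonneg fun τ _ => sum_nonneg fun n _ => by positivity
  have hV0 : 0 ≤ V := sum_nonneg fun τ _ => sum_nonneg fun n _ => by positivity
  have hUsq : U ^ 2 ≤ mom f x 4 * A := weighted_sq T (Icc (1 : ℤ) x) k2 c z (fun n => ‖f n‖) A hrho1
  have hVV' : V ≤ V' := by
    refine sum_le_sum fun τ hτ => ?_
    refine change_var hf hΔ k2 c (z τ) (z τ + -P0) (v τ) ?_
    rw [hT, mem_filter] at hτ
    obtain ⟨w, hw⟩ := hτ.2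
    have h1 : z τ = w := by
      rw [hz]
      show (P0 + h * ((a0 : ℤ) + τ)) / 2 = w
      rw [hw]
      exact Int.mul_ediv_cancel_left _ (by norm_num)
    refine ⟨p * ((a0 : ℤ) + τ), ?_⟩
    rw [h1, hv]
    show w ^ 2 - p * ((k1 : ℤ) - k2) * ((a0 : ℤ) + τ) - (w + -P0) ^ 2 = k2 * (p * ((a0 : ℤ) + τ))
    linear_combination (-P0) * hw + ((a0 : ℤ) + τ) * hP
  have hVsq : V ^ 2 ≤ (∑ y ∈ Icc (-(x : ℤ)) (2 * x), ‖AA f Δ L0 y‖ ^ 4) * A := by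
    refine (pow_le_pow_left₀ hV0 hVV' 2).trans ?_
    exact weighted_sq T (Icc (-(x : ℤ)) (2 * x)) k2 c (fun τ => z τ + -P0)
      (fun y => ‖AA f Δ L0 y‖) A hrho2
  have hfour := AA_four hf Δ L0
  -- Cauchy-Schwarz
  have hCS : ‖∑ τ ∈ T, ∑ n ∈ (Icc (1 : ℤ) x).filter (fun n => (k2 : ℤ) ∣ n - c - z τ ^ 2),
      (starRingEnd ℂ) (f n) * AA f Δ L0 (n - v τ)‖ ^ 2 ≤ U * V := by
    have h1 : ‖∑ τ ∈ T, ∑ n ∈ (Icc (1 : ℤ) x).filter (fun n => (k2 : ℤ) ∣ n - c - z τ ^ 2),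
        (starRingEnd ℂ) (f n) * AA f Δ L0 (n - v τ)‖ ≤
        ∑ τ ∈ T, ∑ n ∈ (Icc (1 : ℤ) x).filter (fun n => (k2 : ℤ) ∣ n - c - z τ ^ 2),
          ‖f n‖ * ‖AA f Δ L0 (n - v τ)‖ := by
      refine (norm_sum_le _ _).trans (sum_le_sum fun τ _ => (norm_sum_le _ _).trans
        (sum_le_sum fun n _ => ?_))
      rw [norm_mul, RCLike.norm_conj]
    refine (pow_le_pow_left₀ (norm_nonneg _) h1 2).trans ?_
    have e : ∀ F : ℕ → ℤ → ℝ, ∑ τ ∈ T, ∑ n ∈ (Icc (1 : ℤ) x).filter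
        (fun n => (k2 : ℤ) ∣ n - c - z τ ^ 2), F τ n =
        ∑ q ∈ T.sigma (fun τ => (Icc (1 : ℤ) x).filter (fun n => (k2 : ℤ) ∣ n - c - z τ ^ 2)),
          F q.1 q.2 := by
      intro F
      rw [sum_sigma]
    rw [hU, hV, e, e (fun _ n => ‖f n‖ ^ 2), e (fun τ n => ‖AA f Δ L0 (n - v τ)‖ ^ 2)]
    exact sum_mul_sq_le_sq_mul_sq _ _ _
  have hM4 : 0 ≤ mom f x 4 := sum_nonneg fun n _ => by positivity
  have hM6 : 0 ≤ mom f x 6 := sum_nonneg fun n _ => by positivity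
  have hA0 : 0 ≤ A := by positivity
  have hS40 : 0 ≤ ∑ y ∈ Icc (-(x : ℤ)) (2 * x), ‖AA f Δ L0 y‖ ^ 4 :=
    sum_nonneg fun n _ => by positivity
  exact final_alg (norm_nonneg _) hU0 hV0 hM4 hA0 hS40 hCS hUsq hVsq hfour

/-- **SQ2.** -/
theorem t (hc : S_cong) : S_block := by
  intro f x k1 k2 h p T0 T1 L0 c hf hk1 hk2 hkx hh1 hh hL0 hΔ
  set P0 : ℕ := k1 / h * p with hP0
  set Δ : ℤ := 2 * (p : ℤ) * ((k1 : ℤ) - k2) * k2 with hΔd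
  set B : ℕ := 2 * k2 * L0 with hB
  have hB0 : 0 < B := by positivity
  set Br : ℝ := (40 * x * (Nat.gcd h k2 : ℝ) ^ 2 * k2.divisors.card) ^ (1 / 2 : ℝ) *
        mom f x 4 ^ (1 / 4 : ℝ) * mom f x 6 ^ (1 / 8 : ℝ) * (L0 : ℝ) ^ (3 / 4 : ℝ) *
        (∑ y ∈ Icc (-(x : ℤ)) (2 * x), ‖AA f Δ L0 y‖ ^ 2) ^ (1 / 8 : ℝ) with hBr
  have hM4 : 0 ≤ mom f x 4 := sum_nonneg fun n _ => by positivity
  have hM6 : 0 ≤ mom f x 6 := sum_nonneg fun n _ => by positivity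
  have hS2 : 0 ≤ ∑ y ∈ Icc (-(x : ℤ)) (2 * x), ‖AA f Δ L0 y‖ ^ 2 :=
    sum_nonneg fun n _ => by positivity
  have hBr0 : 0 ≤ Br := by positivity
  set G : ℕ → ℂ := fun t => if 2 ∣ P0 + h * t then
    ZZ f x c k1 k2 ((P0 : ℕ) : ℤ) ((h * t : ℕ) : ℤ) else 0 with hG
  -- one block
  have hblock : ∀ b : ℕ, ‖∑ t ∈ Ioc b (b + B), G t‖ ≤ Br := by
    intro b
    have e1 : ∑ t ∈ Ioc b (b + B), G t =
        ∑ τ ∈ (range (2 * k2)).filter (fun τ : ℕ => (2 : ℤ) ∣ (P0 : ℤ) + h * (((b + 1 : ℕ) : ℤ) + τ)),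
          ∑ n ∈ (Icc (1 : ℤ) x).filter (fun n => (k2 : ℤ) ∣ n - c -
              (((P0 : ℤ) + h * (((b + 1 : ℕ) : ℤ) + τ)) / 2) ^ 2),
            (starRingEnd ℂ) (f n) * AA f Δ L0 (n - p * ((k1 : ℤ) - k2) * (((b + 1 : ℕ) : ℤ) + τ)) := by
      rw [hB, sum_block_one, sum_filter]
      refine sum_congr rfl fun τ _ => ?_
      have hpar : ∀ l : ℕ, (2 ∣ P0 + h * (b + 1 + τ + 2 * k2 * l)) ↔
          (2 : ℤ) ∣ (P0 : ℤ) + h * (((b + 1 : ℕ) : ℤ) + τ) := by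
        intro l
        have h1 : (2 ∣ P0 + h * (b + 1 + τ + 2 * k2 * l)) ↔
            (2 : ℤ) ∣ ((P0 + h * (b + 1 + τ + 2 * k2 * l) : ℕ) : ℤ) := by
          norm_cast
        rw [h1]
        have h2 : ((P0 + h * (b + 1 + τ + 2 * k2 * l) : ℕ) : ℤ) =
            ((P0 : ℤ) + h * (((b + 1 : ℕ) : ℤ) + τ)) + 2 * (h * k2 * l) := by
          push_cast
          ring
        rw [h2]
        exact dvd_add_left (Dvd.intro _ rfl)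
      by_cases h3 : (2 : ℤ) ∣ (P0 : ℤ) + h * (((b + 1 : ℕ) : ℤ) + τ)
      · rw [if_pos h3, ← inner_sum f x k1 k2 h p (b + 1) τ L0 c hk1 hh h3]
        refine sum_congr rfl fun l _ => ?_
        rw [hG]
        show (if 2 ∣ P0 + h * (b + 1 + τ + 2 * k2 * l) then _ else _) = _
        rw [if_pos ((hpar l).2 h3)]
      · rw [if_neg h3]
        refine sum_eq_zero fun l _ => ?_
        rw [hG]
        show (if 2 ∣ P0 + h * (b + 1 + τ + 2 * k2 * l) then _ else _) = _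
        rw [if_neg fun h4 => h3 ((hpar l).1 h4)]
    rw [e1]
    refine root_eight (norm_nonneg _) hM4 hM6 (by positivity) (by positivity) hS2 ?_
    exact block_eight hc f x k1 k2 h p (b + 1) L0 c hf hk1 hk2 hkx hh1 hh hΔ
  -- the sum
  have e0 : ∑ t ∈ (Ioc T0 T1).filter (fun t => 2 ∣ P0 + h * t),
      ZZ f x c k1 k2 ((P0 : ℕ) : ℤ) ((h * t : ℕ) : ℤ) = ∑ t ∈ Ioc T0 T1, G t := by
    rw [sum_filter]
  rw [e0]
  have hrest : ∀ T : ℕ, T0 ≤ T → T1 < T + B + 1 → ∑ t ∈ Ioc T T1, ‖G t‖ ≤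
      ∑ t ∈ (Ioc T0 T1).filter (fun t => T1 < t + B ∧ 2 ∣ P0 + h * t),
        ‖ZZ f x c k1 k2 ((P0 : ℕ) : ℤ) ((h * t : ℕ) : ℤ)‖ := by
    intro T hT hTB
    have e1 : ∑ t ∈ Ioc T T1, ‖G t‖ = ∑ t ∈ (Ioc T T1).filter (fun t => 2 ∣ P0 + h * t),
        ‖ZZ f x c k1 k2 ((P0 : ℕ) : ℤ) ((h * t : ℕ) : ℤ)‖ := by
      rw [sum_filter]
      refine sum_congr rfl fun t _ => ?_
      rw [hG]
      show ‖(if 2 ∣ P0 + h * t then _ else _)‖ = _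
      split_ifs
      · rfl
      · exact norm_zero
    rw [e1]
    refine sum_le_sum_of_subset_of_nonneg ?_ fun t _ _ => norm_nonneg _
    intro t ht
    rw [mem_filter, mem_Ioc] at ht
    rw [mem_filter, mem_Ioc]
    exact ⟨⟨by omega, ht.1.2⟩, by omega, ht.2⟩
  rcases le_or_gt T0 T1 with hT | hT
  swap
  · rw [Ioc_eq_empty (by omega)]
    simp only [sum_empty, norm_zero, filter_empty]
    positivity
  set J : ℕ := (T1 - T0) / B with hJ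
  have hJB : B * J ≤ T1 - T0 := Nat.mul_div_le _ _
  have hJB2 : T1 - T0 < B * (J + 1) := by
    rw [hJ]; exact Nat.lt_mul_div_succ _ hB0
  have hJB3 : B * (J + 1) = B * J + B := by ring
  rw [← sum_Ioc_consecutive G (n := T0 + B * J) (by omega) (by omega), sum_blocks]
  refine (norm_add_le _ _).trans ?_
  rw [add_comm]
  refine add_le_add ?_ ?_
  · refine (norm_sum_le _ _).trans (hrest _ (by omega) (by omega))
  · refine (norm_sum_le _ _).trans ?_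
    refine (sum_le_sum fun j _ => hblock (T0 + B * j)).trans ?_
    rw [sum_const, card_range, nsmul_eq_mul]
    refine mul_le_mul_of_nonneg_right ?_ hBr0
    have h1 : (J : ℝ) ≤ ((T1 - T0 : ℕ) : ℝ) / (B : ℝ) := by
      rw [hJ]; exact Nat.cast_div_le
    rw [hB] at h1
    push_cast at h1 ⊢
    exact h1

end Pool.Agent.Y812.SQ
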